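import Pool.Agent.QSN.StmtsD

/-!
# QSN, row SLB: the lower bound
-/

set_option autoImplicit false

namespace Pool.Agent.QSN.H65

open Pool.Agent.QSN

/-- SLB -/
theorem slb (stw : StwStmt) (son : SonStmt) : SlbStmt := by
  intro N m D D' _ _ _ _ _ _ hN hdiv hS r hr1 hr4 hlt
  obtain ⟨S⟩ := hS
  have hpos : 0 < Module.finrank ℝ D := lt_of_le_of_lt (Nat.zero_le _) hlt
  obtain ⟨x, hx⟩ : ∃ x : D, x ≠ 0 := by
    by_contra hcon
    push Not at hcon
    have hsub : Subsingleton D := ⟨fun a b => by rw [hcon a, hcon b]⟩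
    have h0 : Module.finrank ℝ D = 0 := Module.finrank_zero_of_subsingleton
    omega
  have h0la : (0 : Fin (N + 2)) < la N := by
    unfold la
    exact Fin.last_pos
  have hne : S.t 0 (la N) x ≠ 0 := by
    intro h
    apply hx
    apply S.inj 0 (la N) h0la
    rw [h, map_zero]
  obtain ⟨p, q, hpq⟩ : ∃ p q, S.t 0 (la N) x p q ≠ 0 := by
    by_contra hcon
    push Not at hcon
    apply hne
    ext p q
    exact hcon p q
  have hact : S.Act (S.w q) := ⟨p, q, x, rfl, hpq⟩
  by_cases h : ∃ μ', S.Act μ' ∧ μ' ≠ S.w q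
  · obtain ⟨μ', h1, h2⟩ := h
    have h3 := stw N m D D' hN hdiv S r hr1 hlt μ' (S.w q) h1 hact h2
    have hr : r = 1 ∨ r = 2 ∨ r = 3 ∨ r = 4 := by omega
    rcases hr with rfl | rfl | rfl | rfl
    · exact ⟨1, 1, by norm_num, by
        have : min 4 (1 + 2) = 3 := by norm_num
        omega⟩
    · exact ⟨1, 2, by norm_num, by
        have : min 4 (2 + 2) = 4 := by norm_num
        omega⟩
    · exact ⟨2, 2, by norm_num, by
        have : min 4 (3 + 2) = 4 := by norm_num
        omega⟩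
    · exact ⟨2, 2, by norm_num, by
        have : min 4 (4 + 2) = 4 := by norm_num
        omega⟩
  · push Not at h
    obtain ⟨h1, h2⟩ := son N m D D' hdiv S r hlt (S.w q) hact h
    refine ⟨mu S.w (S.w q + ep 0 (la N)), mu S.w (S.w q), ?_, h2⟩
    have h3 := lt_of_lt_of_le hlt h1
    have h4 : r - 1 < mu S.w (S.w q + ep 0 (la N)) * mu S.w (S.w q) :=
      lt_of_mul_lt_mul_right h3 (Nat.zero_le _)
    omega

end Pool.Agent.QSN.H65
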