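import Pool.Agent.QSN.StmtsA

/-!
# QSN, row CRM: the commutator relation for the steps (root spaces of any dimension)
-/

set_option autoImplicit false

namespace Pool.Agent.QSN.H65

open Pool.Agent.QSN

variable {ι κ G H : Type} [Group G] [Group H]

theorem u_mem (D : RGM ι κ G H) (l : ι) (x : ℚ) : D.u l x ∈ D.Gam :=
  Subgroup.subset_closure ⟨l, x, rfl⟩

/-- the steps along a list of root elements -/
theorem path (hNSM : NsmStmt) (D : RGM ι κ G H) (hI : D.Inv) (hG : D.Gen) (l l' : ι)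
    (h : D.cl l ≠ D.cl l') (x y : ℚ) (z : ι × ℕ × ℕ × ℚ → ℚ) :
    ∀ (M : List (ι × ℕ × ℕ × ℚ)), (∀ t ∈ M, t ∈ D.L l l') → ∀ n ∈ D.Gam,
      n * (M.map fun t => D.u t.1 (z t)).prod ∈ D.Gam ∧
      (D.χ n)⁻¹ * D.χ (n * (M.map fun t => D.u t.1 (z t)).prod) =
        (M.map fun t => D.V t.1 1 (z t)).prod ∧
      D.V l' (n * (M.map fun t => D.u t.1 (z t)).prod) y = D.V l' n y ∧
      D.V l (n * (M.map fun t => D.u t.1 (z t)).prod) x = D.V l n x := by
  intro M
  induction M with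
  | nil =>
    intro _ n hn
    simp only [List.map_nil, List.prod_nil, mul_one, inv_mul_cancel]
    exact ⟨hn, trivial, trivial, trivial⟩
  | cons t M ih =>
    intro hM n hn
    have ht : t ∈ D.L l l' := hM t List.mem_cons_self
    obtain ⟨hne, hne'⟩ := D.ne l l' h t ht
    have hn1 : n * D.u t.1 (z t) ∈ D.Gam := D.Gam.mul_mem hn (u_mem D _ _)
    obtain ⟨i1, i2, i3, i4⟩ := ih (fun s hs => hM s (List.mem_cons_of_mem _ hs)) _ hn1
    have hV : D.V t.1 n (z t) = D.V t.1 1 (z t) :=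
      hNSM ι κ G H D hI hG l l' h t ht t.1 rfl n hn (z t)
    simp only [List.map_cons, List.prod_cons, ← mul_assoc]
    refine ⟨i1, ?_, ?_, ?_⟩
    · rw [← i2, ← hV]
      simp only [RGM.V]
      group
    · rw [i3]
      exact hI l' t.1 hne'.symm n hn y (z t)
    · rw [i4]
      exact hI l t.1 hne.symm n hn x (z t)

/-- CRM -/
theorem crm (hNSM : NsmStmt) : CrmStmt := by
  intro ι κ G H _ _ D hI hG l l' h n hn x y
  obtain ⟨i1, i2, i3, i4⟩ := path hNSM D hI hG l l' h x y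
    (fun t => t.2.2.2 * x ^ t.2.1 * y ^ t.2.2.1) (D.L l l') (fun t ht => ht) n hn
  rw [← D.com l l' h x y] at i1 i2 i3 i4
  rw [← i2]
  have e1 : D.V l' (n * D.u l x) y = D.V l' n y := hI l' l h.symm n hn y x
  have e2 : D.V l (n * (D.u l x * D.u l' y * (D.u l x)⁻¹ * (D.u l' y)⁻¹) * D.u l' y) x =
      D.V l n x := by
    rw [hI l l' h _ i1 x y, i4]
  have e3 : D.V l' n y =
      (D.χ (n * D.u l x))⁻¹ * D.χ (n * D.u l x * D.u l' y) := e1.symm
  have e4 : n * (D.u l x * D.u l' y * (D.u l x)⁻¹ * (D.u l' y)⁻¹) * D.u l' y * D.u l x =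
      n * D.u l x * D.u l' y := by group
  have e5 : D.V l n x = (D.χ n)⁻¹ * D.χ (n * D.u l x) := rfl
  have e6 : (D.χ (n * (D.u l x * D.u l' y * (D.u l x)⁻¹ * (D.u l' y)⁻¹)))⁻¹ *
      D.χ (n * D.u l x * D.u l' y) = D.V l' n y * D.V l n x := by
    rw [← i3, ← e2]
    simp only [RGM.V]
    rw [e4]
    group
  have e7 : D.V l n x * D.V l' n y = (D.χ n)⁻¹ * D.χ (n * D.u l x * D.u l' y) := by
    rw [e3, e5]; group
  have e8 : (D.χ n)⁻¹ * D.χ (n * D.u l x * D.u l' y) =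
      ((D.χ n)⁻¹ * D.χ (n * (D.u l x * D.u l' y * (D.u l x)⁻¹ * (D.u l' y)⁻¹))) *
      (D.V l' n y * D.V l n x) := by
    rw [← e6]; group
  rw [e7, e8]
  group

end Pool.Agent.QSN.H65
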